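import Pool.Agent.J4H78.HG.Stm2

/-! Project HG2, piece EXT: extension of a character from the principal ideals to all ideals. -/

set_option autoImplicit false

open NumberField Complex Filter Topology MeasureTheory nonZeroDivisors

namespace Pool.Agent.J4H4.HG

open Pool.Agent.J4H78.HG

variable {K : Type} [Field K] [NumberField K]

/-- the angle of `pw μ x` -/
noncomputable def ang (μ : InfinitePlace K → ℝ) (x : K) : ℝ := ∑ w, μ w * Real.log (w x)

theorem pw_ang (μ : InfinitePlace K → ℝ) (x : K) : pw μ x = Complex.exp (((ang μ x : ℝ) : ℂ) * I) := by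
  unfold pw ang
  rw [← Complex.exp_sum]
  congr 1
  push_cast
  rw [Finset.sum_mul]

theorem ang_mul (μ : InfinitePlace K → ℝ) {x y : K} (hx : x ≠ 0) (hy : y ≠ 0) :
    ang μ (x * y) = ang μ x + ang μ y := by
  unfold ang
  rw [← Finset.sum_add_distrib]
  refine Finset.sum_congr rfl fun w _ => ?_
  rw [map_mul, Real.log_mul ((map_ne_zero w).2 hx) ((map_ne_zero w).2 hy)]
  ring

local instance : Fact (0 < 2 * Real.pi) := ⟨by positivity⟩

/-- the angle as a homomorphism -/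
noncomputable def c0 (μ : InfinitePlace K → ℝ) : Additive Kˣ →+ AddCircle (2 * Real.pi) where
  toFun x := ((ang μ ((x.toMul : Kˣ) : K) : ℝ) : AddCircle (2 * Real.pi))
  map_zero' := by
    have : ang μ (1 : K) = 0 := by
      unfold ang
      simp
    rw [toMul_zero, Units.val_one, this]
    simp
  map_add' x y := by
    rw [toMul_add, Units.val_mul, ang_mul μ (Units.ne_zero _) (Units.ne_zero _)]
    simp

theorem toCircle_c0 (μ : InfinitePlace K → ℝ) (x : Kˣ) :
    ((AddCircle.toCircle (c0 μ (Additive.ofMul x)) : Circle) : ℂ) = pw μ (x : K) := by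
  rw [pw_ang]
  show ((AddCircle.toCircle ((ang μ ((x : Kˣ) : K) : ℝ) : AddCircle (2 * Real.pi)) : Circle) : ℂ) = _
  rw [AddCircle.toCircle_apply_mk]
  rw [Circle.coe_exp]
  congr 2
  have : (2 * Real.pi / (2 * Real.pi) : ℝ) = 1 := div_self (by positivity)
  rw [this, one_mul]

theorem ker_unit {x : Kˣ} (hx : toPrincipalIdeal (𝓞 K) K x = 1) :
    ∃ u : (𝓞 K)ˣ, ((u : 𝓞 K) : K) = (x : K) := by
  rw [toPrincipalIdeal_eq_iff, Units.val_one] at hx
  have h1 : (x : K) ∈ (1 : FractionalIdeal (𝓞 K)⁰ K) := by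
    rw [← hx]
    exact FractionalIdeal.mem_spanSingleton_self _ _
  have h2 : (1 : K) ∈ FractionalIdeal.spanSingleton (𝓞 K)⁰ (x : K) := by
    rw [hx]
    exact FractionalIdeal.one_mem_one _
  rw [FractionalIdeal.mem_one_iff] at h1
  rw [FractionalIdeal.mem_spanSingleton] at h2
  obtain ⟨a, ha⟩ := h1
  obtain ⟨b, hb⟩ := h2
  have hab : b * a = 1 := by
    have hinj : Function.Injective (algebraMap (𝓞 K) K) := RingOfIntegers.coe_injective
    apply hinj
    rw [map_mul, ha, map_one, ← hb, Algebra.smul_def]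
  refine ⟨⟨a, b, by rw [mul_comm]; exact hab, hab⟩, ha⟩

theorem c0_ker {μ : InfinitePlace K → ℝ} (h : ∀ u : (𝓞 K)ˣ, pw μ ((u : 𝓞 K) : K) = 1)
    (x : Additive Kˣ) (hx : x ∈ (toPrincipalIdeal (𝓞 K) K).toAdditive.ker) : c0 μ x = 0 := by
  have h1 : toPrincipalIdeal (𝓞 K) K x.toMul = 1 := hx
  obtain ⟨u, hu⟩ := ker_unit h1
  have h2 := toCircle_c0 μ x.toMul
  rw [← hu, h u] at h2
  have h3 : AddCircle.toCircle (c0 μ x) = 1 := by
    ext
    exact h2
  have hi := AddCircle.injective_toCircle (T := 2 * Real.pi) (by positivity)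
  apply hi
  rw [h3, AddCircle.toCircle_zero]

theorem t_EXT : S_EXT := by
  classical
  intro K _ _ μ h
  obtain ⟨P, hP⟩ : ∃ P : Additive Kˣ →+ Additive (FractionalIdeal (𝓞 K)⁰ K)ˣ,
      P = (toPrincipalIdeal (𝓞 K) K).toAdditive := ⟨_, rfl⟩
  have hk : P.ker ≤ (c0 μ).ker := by
    intro x hx
    rw [hP] at hx
    exact c0_ker h x hx
  obtain ⟨f, hf⟩ := (Module.Baer.of_divisible (AddCircle (2 * Real.pi))).extension_property_addMonoidHom
    (M := Additive Kˣ ⧸ P.ker) (N := Additive (FractionalIdeal (𝓞 K)⁰ K)ˣ)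
    (QuotientAddGroup.kerLift P) (QuotientAddGroup.kerLift_injective P) (QuotientAddGroup.lift P.ker (c0 μ) hk)
  have hf' : ∀ x, f (P x) = c0 μ x := by
    intro x
    have := DFunLike.congr_fun hf (QuotientAddGroup.mk x)
    exact this
  have hne : ∀ 𝔞 : Ideal (𝓞 K), 𝔞 ≠ 0 → (𝔞 : FractionalIdeal (𝓞 K)⁰ K) ≠ 0 := by
    intro 𝔞 h𝔞
    exact FractionalIdeal.coeIdeal_ne_zero.2 h𝔞
  refine ⟨{ toFun := fun 𝔞 => if h𝔞 : 𝔞 = 0 then 0 else
              ((AddCircle.toCircle (f (Additive.ofMul (Units.mk0 (𝔞 : FractionalIdeal (𝓞 K)⁰ K) (hne 𝔞 h𝔞))))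
                : Circle) : ℂ)
            map_zero' := by simp
            map_one' := ?_
            map_mul' := ?_ }, ?_⟩
  · rw [dif_neg one_ne_zero]
    have : Units.mk0 ((1 : Ideal (𝓞 K)) : FractionalIdeal (𝓞 K)⁰ K) (hne 1 one_ne_zero) = 1 := by
      ext1
      simp
    rw [this, ofMul_one, map_zero, AddCircle.toCircle_zero]
    simp
  · intro 𝔞 𝔟
    by_cases ha : 𝔞 = 0
    · simp [ha]
    by_cases hb : 𝔟 = 0
    · simp [hb]
    rw [dif_neg ha, dif_neg hb, dif_neg (mul_ne_zero ha hb)]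
    have : Units.mk0 ((𝔞 * 𝔟 : Ideal (𝓞 K)) : FractionalIdeal (𝓞 K)⁰ K) (hne _ (mul_ne_zero ha hb)) =
        Units.mk0 (𝔞 : FractionalIdeal (𝓞 K)⁰ K) (hne 𝔞 ha) * Units.mk0 (𝔟 : FractionalIdeal (𝓞 K)⁰ K) (hne 𝔟 hb) := by
      ext1
      simp
    rw [this, ofMul_mul, map_add, AddCircle.toCircle_add]
    simp
  · intro x hx
    have hs : Ideal.span {x} ≠ 0 := by
      intro h0
      apply hx
      have : x ∈ Ideal.span {x} := Ideal.mem_span_singleton_self x
      rw [h0] at this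
      exact this
    show (if h𝔞 : Ideal.span {x} = 0 then 0 else
              ((AddCircle.toCircle (f (Additive.ofMul (Units.mk0 ((Ideal.span {x} : Ideal (𝓞 K)) :
                FractionalIdeal (𝓞 K)⁰ K) (hne _ h𝔞)))) : Circle) : ℂ)) = _
    rw [dif_neg hs]
    have hxK : (x : K) ≠ 0 := by
      intro h0
      apply hx
      exact RingOfIntegers.coe_injective (h0.trans (map_zero (algebraMap (𝓞 K) K)).symm)
    have hmk : Units.mk0 ((Ideal.span {x} : Ideal (𝓞 K)) : FractionalIdeal (𝓞 K)⁰ K) (hne _ hs) =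
        toPrincipalIdeal (𝓞 K) K (Units.mk0 (x : K) hxK) := by
      symm
      rw [toPrincipalIdeal_eq_iff, Units.val_mk0, Units.val_mk0, FractionalIdeal.coeIdeal_span_singleton]
    rw [hmk]
    have h5 := hf' (Additive.ofMul (Units.mk0 (x : K) hxK))
    rw [hP] at h5
    have h6 : f (Additive.ofMul (toPrincipalIdeal (𝓞 K) K (Units.mk0 (x : K) hxK))) =
        c0 μ (Additive.ofMul (Units.mk0 (x : K) hxK)) := h5
    rw [h6, toCircle_c0]
    rfl

end Pool.Agent.J4H4.HG
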