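import Pool.Agent.J4H78.HG.Stm2
import Pool.Agent.J4H78.GP.Dens

/-! Project HG2, piece FN4: products of small primes near every point of the Arakelov class
group, for almost all primes. -/

set_option autoImplicit false

open NumberField Complex Filter Topology MeasureTheory

namespace Pool.Agent.J4H4.HG

open Pool.Agent.J4H78.HG
open Pool.Agent.J4H78.GP (QD Spl S_LOW2 S_SPL S_HB Dense dense_univ)

lemma SmI_finite (P : Set ℕ) (K : Type) [Field K] [NumberField K] (y : ℝ) : (SmI P K y).Finite := by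
  have h1 : (SmI P K y) ⊆ {𝔞 : Ideal (𝓞 K) | Ideal.absNorm 𝔞 ≤ ⌊y⌋₊} := by
    intro 𝔮 h
    exact Nat.le_floor h.2.2
  exact (Ideal.finite_setOfPred_absNorm_le ⌊y⌋₊).subset h1

lemma card_SmI (hSPL : S_SPL) {p : ℕ} {K : Type} [Field K] [NumberField K]
    (hp : p.Prime) (hK : QD p K) (B : ℝ) :
    {q : ℕ | q ∈ (Set.univ : Set ℕ) ∧ Spl p q ∧ (q : ℝ) ≤ B}.ncard ≤
      ((SmI_finite Set.univ K B).toFinset).card := by
  have hsub : {q : ℕ | q ∈ (Set.univ : Set ℕ) ∧ Spl p q ∧ (q : ℝ) ≤ B} ⊆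
      (fun 𝔮 : Ideal (𝓞 K) => Ideal.absNorm 𝔮) '' (SmI Set.univ K B) := by
    rintro q ⟨hqP, hs, hqB⟩
    obtain ⟨𝔮, h𝔮⟩ := hSPL p q K hp hK hs
    refine ⟨𝔮, ⟨?_, ?_, ?_⟩, h𝔮⟩
    · rw [h𝔮]
      exact hs.1
    · trivial
    · rw [h𝔮]
      exact hqB
  calc _ ≤ ((fun 𝔮 : Ideal (𝓞 K) => Ideal.absNorm 𝔮) '' (SmI Set.univ K B)).ncard :=
        Set.ncard_le_ncard hsub ((SmI_finite Set.univ K B).image _)
    _ ≤ (SmI Set.univ K B).ncard := Set.ncard_image_le (SmI_finite Set.univ K B)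
    _ = _ := Set.ncard_eq_toFinset_card _ _

lemma arak_of {C₀ : ℝ} (hC₀ : 0 < C₀)
    (hD : ∀ (p : ℕ) (K : Type) [Field K] [NumberField K], p.Prime → QD p K →
      ∀ w w' : InfinitePlace K, w ≠ w' → ∀ (S : Finset (Ideal (𝓞 K))), (∀ 𝔮 ∈ S, 𝔮 ≠ ⊥) → S.Nonempty →
      ∀ (n m : ℕ) (T d : ℝ), 0 ≤ T → 0 < d →
        (∀ (μ : InfinitePlace K → ℝ) (ψ : Ideal (𝓞 K) →*₀ ℂ), IsHk K μ ψ → NotNorm ψ →
          (∀ v, |μ v| ≤ C₀ * (n + 1)) → ‖∑ 𝔮 ∈ S, ψ 𝔮‖ ≤ T) →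
        C₀ * (n + 1) * (p : ℝ) ^ 2 * T ^ m ≤ (S.card : ℝ) ^ m → C₀ * (p : ℝ) ^ 10 ≤ (n + 1) * d ^ 2 →
        ∀ 𝔟 : Ideal (𝓞 K), 𝔟 ≠ ⊥ → ∀ t : ℝ, Hit w w' (S : Set (Ideal (𝓞 K))) m 𝔟 t d)
    (hSPL : S_SPL) {A η c C B₀ : ℝ} {p : ℕ} (hp : p.Prime) (hB₀ : 0 < B₀)
    (hA : 0 < A) (hη : 0 < η) (hη1 : η < 1)
    (hCH : C₀ * (C₀ + 2) ≤ p) (hlog : 1 < Real.log p) (hrange : (Real.log p) ^ A ≤ (p : ℝ) ^ c)
    (hC : 2 * (13 + 2 * B₀) / (A * η) ≤ C) (hGH : GH (11 + 2 * B₀) Set.univ A η c p)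
    (hlow : ((Real.log p) ^ A) ^ (1 - η / 2) ≤
      (({q : ℕ | q ∈ (Set.univ : Set ℕ) ∧ Spl p q ∧ (q : ℝ) ≤ (Real.log p) ^ A}.ncard : ℕ) : ℝ)) :
    Arak A C B₀ p := by
  intro K _ _ hK w w' hww m hm 𝔟 h𝔟 t
  set B : ℝ := (Real.log p) ^ A with hB
  have hlog0 : 0 < Real.log p := by linarith
  have hB0 : 0 < B := Real.rpow_pos_of_pos hlog0 _
  have hB1 : 1 ≤ B := Real.one_le_rpow hlog.le hA.le
  have hp1 : (1 : ℝ) < p := by exact_mod_cast hp.one_lt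
  have hp0 : (0 : ℝ) < p := by linarith
  have hll : 0 < Real.log (Real.log p) := Real.log_pos hlog
  obtain ⟨S, hS⟩ : ∃ S : Finset (Ideal (𝓞 K)), S = (SmI_finite Set.univ K B).toFinset := ⟨_, rfl⟩
  have hScoe : (S : Set (Ideal (𝓞 K))) = SmI Set.univ K B := by
    rw [hS]
    simp
  have hNB : B ^ (1 - η / 2) ≤ (S.card : ℝ) := by
    refine hlow.trans ?_
    rw [hS]
    exact_mod_cast card_SmI hSPL hp hK B
  have hN1 : (1 : ℝ) ≤ S.card := (Real.one_le_rpow hB1 (by linarith)).trans hNB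
  have hSne : S.Nonempty := by
    rw [← Finset.card_pos]
    exact_mod_cast (by linarith : (0 : ℝ) < S.card)
  have hSb : ∀ 𝔮 ∈ S, 𝔮 ≠ ⊥ := by
    intro 𝔮 h𝔮 h0
    have h1 : 𝔮 ∈ SmI Set.univ K B := by
      rw [← hScoe]
      exact h𝔮
    have h2 : (Ideal.absNorm 𝔮).Prime := h1.1
    rw [h0, Ideal.absNorm_bot] at h2
    exact Nat.not_prime_zero h2
  obtain ⟨n, hn⟩ : ∃ n : ℕ, n = ⌈C₀ * (p : ℝ) ^ (10 + 2 * B₀)⌉₊ := ⟨_, rfl⟩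
  have hpow1 : (1 : ℝ) ≤ (p : ℝ) ^ (10 + 2 * B₀) := Real.one_le_rpow hp1.le (by linarith)
  have hn1 : C₀ * (p : ℝ) ^ (10 + 2 * B₀) ≤ n + 1 := by
    rw [hn]
    have := Nat.le_ceil (C₀ * (p : ℝ) ^ (10 + 2 * B₀))
    linarith
  have hn2 : (n : ℝ) + 1 ≤ (C₀ + 2) * (p : ℝ) ^ (10 + 2 * B₀) := by
    rw [hn]
    have := (Nat.ceil_lt_add_one (show 0 ≤ C₀ * (p : ℝ) ^ (10 + 2 * B₀) by positivity)).le
    nlinarith
  have hn3 : C₀ * ((n : ℝ) + 1) ≤ (p : ℝ) ^ (11 + 2 * B₀) := by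
    calc C₀ * ((n : ℝ) + 1) ≤ C₀ * ((C₀ + 2) * (p : ℝ) ^ (10 + 2 * B₀)) := by gcongr
      _ = C₀ * (C₀ + 2) * (p : ℝ) ^ (10 + 2 * B₀) := by ring
      _ ≤ p * (p : ℝ) ^ (10 + 2 * B₀) := by gcongr
      _ = (p : ℝ) ^ (11 + 2 * B₀) := by
        rw [show 11 + 2 * B₀ = 1 + (10 + 2 * B₀) by ring, Real.rpow_add hp0 1 (10 + 2 * B₀), Real.rpow_one]
  rw [← hScoe]
  refine hD p K hp hK w w' hww S hSb hSne n m (B ^ (1 - η)) ((p : ℝ) ^ (-B₀)) (by positivity)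
    (by positivity) ?_ ?_ ?_ 𝔟 h𝔟 t
  · intro μ ψ hψ hnn hμ
    have h1 := hGH K hK μ (fun v => (hμ v).trans hn3) ψ hψ hnn B le_rfl hrange
    rw [finsum_mem_eq_finite_toFinset_sum _ (SmI_finite Set.univ K B)] at h1
    rw [hS]
    exact h1
  · have hq : (p : ℝ) ^ (13 + 2 * B₀) ≤ (B ^ (η / 2)) ^ m := by
      have h1 : (p : ℝ) ^ (13 + 2 * B₀) = Real.exp ((13 + 2 * B₀) * Real.log p) := by
        rw [Real.rpow_def_of_pos hp0, mul_comm]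
      have h2 : (B ^ (η / 2)) ^ m = Real.exp (Real.log (Real.log p) * A * (η / 2) * m) := by
        rw [hB, ← Real.rpow_natCast, ← Real.rpow_mul hlog0.le, ← Real.rpow_mul hlog0.le,
          Real.rpow_def_of_pos hlog0]
        ring_nf
      rw [h1, h2, Real.exp_le_exp]
      have h3 : 2 * (13 + 2 * B₀) / (A * η) * Real.log p / Real.log (Real.log p) ≤ m := by
        refine le_trans ?_ hm
        gcongr
      have h4 : 0 < A * η := by positivity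
      rw [div_mul_eq_mul_div, div_div, div_le_iff₀ (by positivity)] at h3
      nlinarith
    have hpow : (B ^ (1 - η)) ^ m * (B ^ (η / 2)) ^ m ≤ (S.card : ℝ) ^ m := by
      rw [← mul_pow, ← Real.rpow_add hB0]
      refine pow_le_pow_left₀ (by positivity) ?_ m
      rw [show 1 - η + η / 2 = 1 - η / 2 by ring]
      exact hNB
    have h5 : C₀ * ((n : ℝ) + 1) * (p : ℝ) ^ 2 ≤ (p : ℝ) ^ (13 + 2 * B₀) := by
      calc C₀ * ((n : ℝ) + 1) * (p : ℝ) ^ 2 ≤ (p : ℝ) ^ (11 + 2 * B₀) * (p : ℝ) ^ 2 := by gcongr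
        _ = (p : ℝ) ^ (13 + 2 * B₀) := by
          rw [← Real.rpow_natCast (p : ℝ) 2, ← Real.rpow_add hp0]
          congr 1
          push_cast
          ring
    calc C₀ * ((n : ℝ) + 1) * (p : ℝ) ^ 2 * (B ^ (1 - η)) ^ m
        ≤ (p : ℝ) ^ (13 + 2 * B₀) * (B ^ (1 - η)) ^ m := by gcongr
      _ ≤ (B ^ (η / 2)) ^ m * (B ^ (1 - η)) ^ m := by gcongr
      _ = (B ^ (1 - η)) ^ m * (B ^ (η / 2)) ^ m := by ring
      _ ≤ (S.card : ℝ) ^ m := hpow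
  · have h6 : ((p : ℝ) ^ (-B₀)) ^ 2 = (p : ℝ) ^ (-(2 * B₀)) := by
      rw [← Real.rpow_natCast, ← Real.rpow_mul hp0.le]
      congr 1
      push_cast
      ring
    rw [h6]
    calc C₀ * (p : ℝ) ^ 10 = C₀ * (p : ℝ) ^ (10 + 2 * B₀) * (p : ℝ) ^ (-(2 * B₀)) := by
          rw [mul_assoc, ← Real.rpow_add hp0, ← Real.rpow_natCast (p : ℝ) 10]
          congr 2
          push_cast
          ring
      _ ≤ ((n : ℝ) + 1) * (p : ℝ) ^ (-(2 * B₀)) := by gcongr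

theorem t_FN4 (hDEN : S_DEN) (hGAH : S_GAH) (hLOW : S_LOW2) (hSPL : S_SPL) : S_FN4 := by
  intro δ B₀ hδ hB₀
  obtain ⟨C₀, hC₀, hD⟩ := hDEN
  obtain ⟨A₁, η, c, C₁, hA₁, hη, hη1, hc, hC₁, hG⟩ := hGAH δ (11 + 2 * B₀) hδ (by linarith)
  obtain ⟨κ, A₀, hκ, hA₀, hL⟩ := hLOW δ (η / 2) hδ (by linarith) (by linarith)
  set A : ℝ := max A₁ A₀ with hA
  have hA1 : 1 ≤ A := hA₁.trans (le_max_left _ _)
  have hA0 : 0 < A := by linarith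
  -- large primes
  obtain ⟨p₀, hp₀⟩ : ∃ p₀ : ℕ, ∀ p : ℕ, p₀ ≤ p → 1 < Real.log p ∧ C₀ * (C₀ + 2) ≤ p ∧
      (Real.log p) ^ A ≤ (p : ℝ) ^ c := by
    have h1 : ∀ᶠ p : ℕ in atTop, 1 < Real.log p :=
      (Real.tendsto_log_atTop.comp tendsto_natCast_atTop_atTop).eventually_gt_atTop 1
    have h2 : ∀ᶠ p : ℕ in atTop, C₀ * (C₀ + 2) ≤ (p : ℝ) :=
      tendsto_natCast_atTop_atTop.eventually_ge_atTop _
    have h3 : ∀ᶠ y : ℝ in atTop, (Real.log y) ^ A ≤ y ^ c := by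
      have h4 := (isLittleO_log_rpow_rpow_atTop A hc).bound one_pos
      filter_upwards [h4, eventually_ge_atTop (1 : ℝ)] with y hy hy1
      rw [one_mul, Real.norm_of_nonneg (Real.rpow_nonneg (Real.log_nonneg hy1) _),
        Real.norm_of_nonneg (Real.rpow_nonneg (by linarith) _)] at hy
      exact hy
    have h5 := tendsto_natCast_atTop_atTop.eventually h3
    exact eventually_atTop.mp (h1.and (h2.and h5))
  obtain ⟨C₂, hC₂, hL2⟩ := hL A (le_max_right _ _) Set.univ (dense_univ hκ)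
  set C : ℝ := p₀ + C₁ + C₂ + 2 * (13 + 2 * B₀) / (A * η) with hCdef
  have hC0 : 0 < C := by positivity
  refine ⟨A, C, hA0, hC0, fun x hx => ?_⟩
  have hx1 : (1 : ℝ) ≤ x := by exact_mod_cast hx
  have hxδ : (1 : ℝ) ≤ (x : ℝ) ^ δ := Real.one_le_rpow hx1 hδ.le
  have hGA : ∀ p : ℕ, p₀ ≤ p → GH (11 + 2 * B₀) Set.univ A₁ η c p →
      GH (11 + 2 * B₀) Set.univ A η c p := by
    intro p hp h K _ _ hK μ hμ ψ h1 h2 y hy hy2
    refine h K hK μ hμ ψ h1 h2 y (le_trans ?_ hy) hy2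
    exact Real.rpow_le_rpow_of_exponent_le (hp₀ p hp).1.le (le_max_left _ _)
  have hfin1 : {p : ℕ | p.Prime ∧ p ≤ x ∧ ¬ GH (11 + 2 * B₀) Set.univ A₁ η c p}.Finite :=
    (Set.finite_Iic x).subset fun p hp => hp.2.1
  have hfin0 : (Set.Iio p₀ : Set ℕ).Finite := Set.finite_Iio p₀
  have hcard0 : (Set.Iio p₀ : Set ℕ).ncard = p₀ := by
    rw [← Finset.coe_Iio, Set.ncard_coe_finset, Nat.card_Iio]
  have hfin2 : {p : ℕ | p ≤ x ∧ p.Prime ∧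
      (({q : ℕ | q ∈ (Set.univ : Set ℕ) ∧ Spl p q ∧ (q : ℝ) ≤ (Real.log p) ^ A}.ncard : ℕ) : ℝ) <
      ((Real.log p) ^ A) ^ (1 - η / 2)}.Finite := (Set.finite_Iic x).subset fun p hp => hp.1
  have hp₀x : (p₀ : ℝ) ≤ p₀ * (x : ℝ) ^ δ := le_mul_of_one_le_right (Nat.cast_nonneg _) hxδ
  have hG' := hG Set.univ x hx
  have hxpos : 0 < (x : ℝ) ^ δ := by linarith
  have hL3 := hL2 x hx
  have hsub : {p : ℕ | p.Prime ∧ p ≤ x ∧ ¬ Arak A C B₀ p} ⊆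
      ((Set.Iio p₀ : Set ℕ) ∪ {p : ℕ | p.Prime ∧ p ≤ x ∧ ¬ GH (11 + 2 * B₀) Set.univ A₁ η c p}) ∪
        {p : ℕ | p ≤ x ∧ p.Prime ∧
        (({q : ℕ | q ∈ (Set.univ : Set ℕ) ∧ Spl p q ∧ (q : ℝ) ≤ (Real.log p) ^ A}.ncard : ℕ) : ℝ) <
        ((Real.log p) ^ A) ^ (1 - η / 2)} := by
    intro p hp
    by_cases h1 : p < p₀
    · exact Or.inl (Or.inl h1)
    · by_cases h2 : GH (11 + 2 * B₀) Set.univ A₁ η c p
      · by_cases h3 : (({q : ℕ | q ∈ (Set.univ : Set ℕ) ∧ Spl p q ∧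
            (q : ℝ) ≤ (Real.log p) ^ A}.ncard : ℕ) : ℝ) < ((Real.log p) ^ A) ^ (1 - η / 2)
        · exact Or.inr ⟨hp.2.1, hp.1, h3⟩
        · exfalso
          apply hp.2.2
          obtain ⟨g1, g2, g3⟩ := hp₀ p (not_lt.mp h1)
          refine arak_of hC₀ hD hSPL hp.1 hB₀ hA0 hη hη1 g2 g1 g3 ?_
            (hGA p (not_lt.mp h1) h2) (not_lt.mp h3)
          rw [hCdef]
          have : 0 ≤ (p₀ : ℝ) + C₁ + C₂ := by positivity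
          linarith
      · exact Or.inl (Or.inr ⟨hp.1, hp.2.1, h2⟩)
  have h1 := (Set.ncard_le_ncard hsub ((hfin0.union hfin1).union hfin2)).trans
    ((Set.ncard_union_le _ _).trans (Nat.add_le_add_right (Set.ncard_union_le _ _) _))
  rw [hcard0] at h1
  calc ({p : ℕ | p.Prime ∧ p ≤ x ∧ ¬ Arak A C B₀ p}.ncard : ℝ)
      ≤ (p₀ : ℝ) + ({p : ℕ | p.Prime ∧ p ≤ x ∧ ¬ GH (11 + 2 * B₀) Set.univ A₁ η c p}.ncard : ℝ) +
        ({p : ℕ | p ≤ x ∧ p.Prime ∧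
        (({q : ℕ | q ∈ (Set.univ : Set ℕ) ∧ Spl p q ∧ (q : ℝ) ≤ (Real.log p) ^ A}.ncard : ℕ) : ℝ) <
        ((Real.log p) ^ A) ^ (1 - η / 2)}.ncard : ℝ) := by exact_mod_cast h1
    _ ≤ p₀ * (x : ℝ) ^ δ + C₁ * (x : ℝ) ^ δ + C₂ * (x : ℝ) ^ δ :=
        add_le_add (add_le_add hp₀x hG') hL3
    _ ≤ C * (x : ℝ) ^ δ := by
        rw [hCdef]
        have h2 : 0 ≤ (2 * (13 + 2 * B₀) / (A * η)) * (x : ℝ) ^ δ := by positivity
        linarith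

end Pool.Agent.J4H4.HG
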